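import Pool.Agent.helper29.RS.SpecK

set_option autoImplicit false

open scoped MatrixGroups ContDiff Topology UpperHalfPlane ComplexConjugate
open UpperHalfPlane MeasureTheory Filter Set

namespace Pool.Agent.RS

theorem EF1_cont {n : WithTop ℕ∞} {φ : ℍ → ℂ} (h : QU.CD n φ) : Continuous φ := by
  have h1 : ContinuousOn (QU.onC φ) {w : ℂ | 0 < w.im} := h.continuousOn
  have h2 : Continuous fun z : ℍ => QU.onC φ (z : ℂ) := h1.comp_continuous continuous_coe fun z => z.im_pos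
  have h3 : (fun z : ℍ => QU.onC φ (z : ℂ)) = φ := by
    funext z
    unfold QU.onC
    rw [ofComplex_apply]
  rwa [h3] at h2

theorem EF1_invC {Γ : Subgroup SL(2, ℝ)} {lam : ℝ} {φ : ℍ → ℂ} (h : EigL Γ lam φ) : InvC Γ φ :=
  ⟨EF1_cont h.1, h.2.1⟩

theorem EF1_int (hGFD : GFD_stmt) (hGBD : GBD_stmt) (hFL0 : FL0_stmt) {Γ : Subgroup SL(2, ℝ)} {F : Set ℍ}
    {c φ : ℍ → ℂ} (r : ℝ) (hΓ : QU.SurfaceGroup Γ) (hF : QU.NiceDom Γ F) (hc : TB (1 / 4) c) (hφ : InvC Γ φ) :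
    IntegrableOn (fun g => ‖Wf (pk r c) φ g‖ ^ 2) (dG F) mG := by
  obtain ⟨⟨hm, -, hfin, -⟩, -⟩ := hGFD Γ F hΓ hF
  have hT := hFL0.2.1 (1 / 4) r c hc
  have hW : InvG Γ (Wf (pk r c) φ) := hFL0.2.2 Γ (pk r c) φ (EF1_cont hT.1) hT.2 hφ
  obtain ⟨⟨m, hm'⟩, -⟩ := hGBD Γ ℂ (Wf (pk r c) φ) hΓ hW
  have hcont : Continuous fun g => ‖Wf (pk r c) φ g‖ ^ 2 := hW.1.norm.pow 2
  have : IsFiniteMeasure (mG.restrict (dG F)) := ⟨by rwa [Measure.restrict_apply_univ]⟩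
  refine Integrable.of_bound hcont.aestronglyMeasurable (m ^ 2) (Filter.Eventually.of_forall fun g => ?_)
  rw [Real.norm_eq_abs, abs_of_nonneg (by positivity)]
  exact pow_le_pow_left₀ (norm_nonneg _) (hm' g) 2

theorem EF1_step (hGFD : GFD_stmt) (hGBD : GBD_stmt) (hFL0 : FL0_stmt) (hFL4 : FL4_stmt)
    {Γ : Subgroup SL(2, ℝ)} {F : Set ℍ} {c φ : ℍ → ℂ} (r lam : ℝ) (hr : 1 ≤ r) (hΓ : QU.SurfaceGroup Γ)
    (hF : QU.NiceDom Γ F) (hc : TB (1 / 4) c) (hφ : EigL Γ lam φ) :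
    (1 / 4 + r ^ 2 - lam) ^ 2 * qn F c r φ ≤ 18 * r ^ 2 * (qn F (QU.dY c) r φ + qn F (QU.lap c) r φ) := by
  have hφ' := EF1_invC hφ
  obtain ⟨-, -, hdY, -, hlap, -⟩ := hFL0.1 (1 / 4) c hc
  have i0 := EF1_int hGFD hGBD hFL0 r hΓ hF hc hφ'
  have i1 := EF1_int hGFD hGBD hFL0 r hΓ hF hdY hφ'
  have i2 := EF1_int hGFD hGBD hFL0 r hΓ hF hlap hφ'
  have hpt : ∀ g, (1 / 4 + r ^ 2 - lam) ^ 2 * ‖Wf (pk r c) φ g‖ ^ 2 ≤
      18 * r ^ 2 * (‖Wf (pk r (QU.dY c)) φ g‖ ^ 2 + ‖Wf (pk r (QU.lap c)) φ g‖ ^ 2) := by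
    intro g
    have h := hFL4 Γ lam r c φ hc hφ g
    have h1 : ((1 / 4 + r ^ 2 - lam : ℝ) : ℂ) * Wf (pk r c) φ g =
        (1 + 2 * (r : ℂ) * Complex.I) * Wf (pk r (QU.dY c)) φ g - Wf (pk r (QU.lap c)) φ g := by
      rw [h]
      ring
    have h2 : ‖(1 + 2 * (r : ℂ) * Complex.I)‖ ≤ 3 * r := by
      refine (norm_add_le _ _).trans ?_
      rw [norm_one, norm_mul, norm_mul, Complex.norm_I, Complex.norm_real, Real.norm_eq_abs, abs_of_pos (by linarith)]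
      norm_num
      linarith
    have h3 : |1 / 4 + r ^ 2 - lam| * ‖Wf (pk r c) φ g‖ ≤
        3 * r * (‖Wf (pk r (QU.dY c)) φ g‖ + ‖Wf (pk r (QU.lap c)) φ g‖) := by
      have h4 := congrArg norm h1
      rw [norm_mul, Complex.norm_real, Real.norm_eq_abs] at h4
      rw [h4]
      refine (norm_sub_le _ _).trans ?_
      rw [norm_mul]
      have h5 := mul_le_mul_of_nonneg_right h2 (norm_nonneg (Wf (pk r (QU.dY c)) φ g))
      have h6 : 1 * ‖Wf (pk r (QU.lap c)) φ g‖ ≤ 3 * r * ‖Wf (pk r (QU.lap c)) φ g‖ :=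
        mul_le_mul_of_nonneg_right (by linarith) (norm_nonneg _)
      linarith
    have h7 := pow_le_pow_left₀ (by positivity) h3 2
    rw [mul_pow, sq_abs] at h7
    refine h7.trans ?_
    have h8 := sq_nonneg (‖Wf (pk r (QU.dY c)) φ g‖ - ‖Wf (pk r (QU.lap c)) φ g‖)
    have h9 : 0 ≤ r ^ 2 := sq_nonneg r
    nlinarith
  unfold qn iR
  rw [← integral_const_mul, ← integral_add i1 i2, ← integral_const_mul]
  exact integral_mono (i0.const_mul _) ((i1.add i2).const_mul _) hpt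

theorem EF1 (hGFD : GFD_stmt) (hGBD : GBD_stmt) (hGWB : GWB_stmt) (hCV1 : CV1_stmt) (hBK3 : BK3_stmt)
    (hFL0 : FL0_stmt) (hFL4 : FL4_stmt) (hTRV : TRV_stmt) (hGR2 : GR2_stmt) : EF1_stmt := by
  intro c hc
  obtain ⟨-, -, hc1, -, hc2, -⟩ := hFL0.1 (1 / 4) c hc
  obtain ⟨-, -, hc11, -, hc12, -⟩ := hFL0.1 (1 / 4) _ hc1
  obtain ⟨-, -, hc21, -, hc22, -⟩ := hFL0.1 (1 / 4) _ hc2
  obtain ⟨K1, hK1, hb1⟩ := (hBK3 _ (hCV1.2.1 _ hc1).1).1
  obtain ⟨K2, hK2, hb2⟩ := (hBK3 _ (hCV1.2.1 _ hc2).1).1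
  obtain ⟨K11, hK11, hb11⟩ := hTRV _ hc11
  obtain ⟨K12, hK12, hb12⟩ := hTRV _ hc12
  obtain ⟨K21, hK21, hb21⟩ := hTRV _ hc21
  obtain ⟨K22, hK22, hb22⟩ := hTRV _ hc22
  set KF : ℝ := K11 + K12 + K21 + K22 with hKF
  have hKF0 : 0 ≤ KF := by positivity
  refine ⟨18 * (K1 + K2) + 324 * 200 ^ 4 * KF, by positivity, ?_⟩
  intro Γ F r R0 lam φ hΓ hF hR0 hr hφ hs
  have hφ' := EF1_invC hφ
  have hr1 : 1 ≤ r := by linarith
  have hr0 : 0 < r := by linarith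
  have hR00 : 0 < R0 := by linarith
  have hnn : 0 ≤ nn F φ := integral_nonneg fun z => by positivity
  have hq : ∀ c', 0 ≤ qn F c' r φ := fun c' => integral_nonneg fun g => by positivity
  have st0 := EF1_step hGFD hGBD hFL0 hFL4 r lam hr1 hΓ hF hc hφ
  -- the two cases
  have hfar : r ^ 2 / 200 ≤ |1 / 4 + r ^ 2 - lam| → qn F c r φ ≤ 324 * 200 ^ 4 * KF / (R0 ^ 2 * r) * nn F φ := by
    intro hL
    have st1 := EF1_step hGFD hGBD hFL0 hFL4 r lam hr1 hΓ hF hc1 hφ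
    have st2 := EF1_step hGFD hGBD hFL0 hFL4 r lam hr1 hΓ hF hc2 hφ
    have b11 := hb11 Γ F r φ hΓ hF hφ'
    have b12 := hb12 Γ F r φ hΓ hF hφ'
    have b21 := hb21 Γ F r φ hΓ hF hφ'
    have b22 := hb22 Γ F r φ hΓ hF hφ'
    have hL2 : (r ^ 2 / 200) ^ 2 ≤ (1 / 4 + r ^ 2 - lam) ^ 2 := by
      rw [← sq_abs (1 / 4 + r ^ 2 - lam)]
      exact pow_le_pow_left₀ (by positivity) hL 2
    set M : ℝ := (1 / 4 + r ^ 2 - lam) ^ 2 with hM
    have hM0 : 0 ≤ M := sq_nonneg _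
    have e1 : M ^ 2 * qn F c r φ ≤ 324 * r ^ 4 * (KF * nn F φ) := by
      have h1 : M * (M * qn F c r φ) ≤ M * (18 * r ^ 2 * (qn F (QU.dY c) r φ + qn F (QU.lap c) r φ)) :=
        mul_le_mul_of_nonneg_left st0 hM0
      have h2 : 18 * r ^ 2 * (M * qn F (QU.dY c) r φ + M * qn F (QU.lap c) r φ) ≤
          18 * r ^ 2 * (18 * r ^ 2 * (KF * nn F φ)) := by
        refine mul_le_mul_of_nonneg_left ?_ (by positivity)
        have h3 : 18 * r ^ 2 * (qn F (QU.dY (QU.dY c)) r φ + qn F (QU.lap (QU.dY c)) r φ) +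
            18 * r ^ 2 * (qn F (QU.dY (QU.lap c)) r φ + qn F (QU.lap (QU.lap c)) r φ) ≤
            18 * r ^ 2 * (KF * nn F φ) := by
          rw [← mul_add]
          refine mul_le_mul_of_nonneg_left ?_ (by positivity)
          rw [hKF]
          linarith
        linarith
      calc M ^ 2 * qn F c r φ = M * (M * qn F c r φ) := by ring
        _ ≤ M * (18 * r ^ 2 * (qn F (QU.dY c) r φ + qn F (QU.lap c) r φ)) := h1
        _ = 18 * r ^ 2 * (M * qn F (QU.dY c) r φ + M * qn F (QU.lap c) r φ) := by ring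
        _ ≤ 18 * r ^ 2 * (18 * r ^ 2 * (KF * nn F φ)) := h2
        _ = 324 * r ^ 4 * (KF * nn F φ) := by ring
    have e2 : ((r ^ 2 / 200) ^ 2) ^ 2 * qn F c r φ ≤ M ^ 2 * qn F c r φ :=
      mul_le_mul_of_nonneg_right (pow_le_pow_left₀ (by positivity) hL2 2) (hq c)
    have e3 : r ^ 8 * qn F c r φ ≤ 324 * 200 ^ 4 * r ^ 4 * (KF * nn F φ) := by
      have e4 : ((r ^ 2 / 200) ^ 2) ^ 2 = r ^ 8 / 200 ^ 4 := by ring
      rw [e4] at e2
      have e5 := e2.trans e1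
      rw [div_mul_eq_mul_div, div_le_iff₀ (by norm_num)] at e5
      linarith
    have e6 : qn F c r φ ≤ 324 * 200 ^ 4 * (KF * nn F φ) / r ^ 4 := by
      rw [le_div_iff₀ (by positivity)]
      have e7 : r ^ 4 * (qn F c r φ * r ^ 4) ≤ r ^ 4 * (324 * 200 ^ 4 * (KF * nn F φ)) := by
        calc r ^ 4 * (qn F c r φ * r ^ 4) = r ^ 8 * qn F c r φ := by ring
          _ ≤ 324 * 200 ^ 4 * r ^ 4 * (KF * nn F φ) := e3
          _ = r ^ 4 * (324 * 200 ^ 4 * (KF * nn F φ)) := by ring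
      exact le_of_mul_le_mul_left e7 (by positivity)
    refine e6.trans ?_
    have e8 : R0 ^ 2 * r ≤ r ^ 4 := by
      have e9 : R0 ≤ r := by linarith
      have e10 : R0 ^ 2 ≤ r ^ 2 := pow_le_pow_left₀ hR00.le e9 2
      have e11 : R0 ^ 2 * r ≤ r ^ 2 * r := mul_le_mul_of_nonneg_right e10 hr0.le
      have e12 : r ^ 3 * 1 ≤ r ^ 3 * r := mul_le_mul_of_nonneg_left hr1 (by positivity)
      nlinarith
    rw [div_mul_eq_mul_div, mul_assoc (324 * 200 ^ 4) KF]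
    exact div_le_div_of_nonneg_left (by positivity) (by positivity) e8
  have hmid : ∀ s : ℝ, 0 ≤ s → lam = 1 / 4 + s ^ 2 → |s - r| ≤ r / 100 →
      qn F c r φ ≤ 18 * (K1 + K2) / (R0 ^ 2 * r) * nn F φ := by
    intro s hs0 hlam hsr
    have hsR := hs s hs0 hlam
    have hφs : EigL Γ (1 / 4 + s ^ 2) φ := by rw [← hlam]; exact hφ
    have g1 := (hGR2 Γ F hΓ hF s φ hφs).2 _ r hc1
    have g2 := (hGR2 Γ F hΓ hF s φ hφs).2 _ r hc2
    have k1 := (hb1 r s hr1 hsr).2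
    have k2 := (hb2 r s hr1 hsr).2
    have hL : (R0 * r) ^ 2 ≤ (1 / 4 + r ^ 2 - lam) ^ 2 := by
      have h1 : 1 / 4 + r ^ 2 - lam = -((s - r) * (s + r)) := by
        rw [hlam]
        ring
      rw [h1, neg_sq, ← sq_abs ((s - r) * (s + r)), abs_mul]
      refine pow_le_pow_left₀ (by positivity) ?_ 2
      refine mul_le_mul hsR.le ?_ hr0.le (abs_nonneg _)
      rw [abs_of_nonneg (by linarith)]
      linarith
    have e1 : (R0 * r) ^ 2 * qn F c r φ ≤ 18 * r ^ 2 * (qn F (QU.dY c) r φ + qn F (QU.lap c) r φ) :=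
      (mul_le_mul_of_nonneg_right hL (hq c)).trans st0
    rw [g1, g2] at e1
    have e2 : r * (nn F φ * bk (cc (QU.dY c)) r s + nn F φ * bk (cc (QU.lap c)) r s) ≤ nn F φ * (K1 + K2) := by
      have h2 := mul_le_mul_of_nonneg_left k1 hnn
      have h3 := mul_le_mul_of_nonneg_left k2 hnn
      linarith
    rw [div_mul_eq_mul_div, le_div_iff₀ (by positivity)]
    have e3 : r * (qn F c r φ * (R0 ^ 2 * r)) ≤ r * (18 * (K1 + K2) * nn F φ) := by
      calc r * (qn F c r φ * (R0 ^ 2 * r)) = (R0 * r) ^ 2 * qn F c r φ := by ring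
        _ ≤ 18 * r ^ 2 * (nn F φ * bk (cc (QU.dY c)) r s + nn F φ * bk (cc (QU.lap c)) r s) := e1
        _ = 18 * r * (r * (nn F φ * bk (cc (QU.dY c)) r s + nn F φ * bk (cc (QU.lap c)) r s)) := by ring
        _ ≤ 18 * r * (nn F φ * (K1 + K2)) := mul_le_mul_of_nonneg_left e2 (by positivity)
        _ = r * (18 * (K1 + K2) * nn F φ) := by ring
    exact le_of_mul_le_mul_left e3 hr0
  have hK1' : 18 * (K1 + K2) / (R0 ^ 2 * r) * nn F φ ≤ (18 * (K1 + K2) + 324 * 200 ^ 4 * KF) / (R0 ^ 2 * r) * nn F φ := by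
    refine mul_le_mul_of_nonneg_right ?_ hnn
    refine div_le_div_of_nonneg_right ?_ (by positivity)
    have : 0 ≤ 324 * 200 ^ 4 * KF := by positivity
    linarith
  have hK2' : 324 * 200 ^ 4 * KF / (R0 ^ 2 * r) * nn F φ ≤ (18 * (K1 + K2) + 324 * 200 ^ 4 * KF) / (R0 ^ 2 * r) * nn F φ := by
    refine mul_le_mul_of_nonneg_right ?_ hnn
    refine div_le_div_of_nonneg_right ?_ (by positivity)
    have : 0 ≤ 18 * (K1 + K2) := by positivity
    linarith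
  rcases lt_or_ge lam (1 / 4) with hl | hl
  · refine (hfar ?_).trans hK2'
    rw [abs_of_nonneg (by nlinarith)]
    nlinarith
  · have hs0 : 0 ≤ Real.sqrt (lam - 1 / 4) := Real.sqrt_nonneg _
    have hlam : lam = 1 / 4 + Real.sqrt (lam - 1 / 4) ^ 2 := by
      rw [Real.sq_sqrt (by linarith)]
      ring
    by_cases hsr : |Real.sqrt (lam - 1 / 4) - r| ≤ r / 100
    · exact (hmid _ hs0 hlam hsr).trans hK1'
    · refine (hfar ?_).trans hK2'
      have h1 : 1 / 4 + r ^ 2 - lam = -((Real.sqrt (lam - 1 / 4) - r) * (Real.sqrt (lam - 1 / 4) + r)) := by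
        have h2 : (Real.sqrt (lam - 1 / 4) - r) * (Real.sqrt (lam - 1 / 4) + r) =
            Real.sqrt (lam - 1 / 4) ^ 2 - r ^ 2 := by ring
        rw [h2, Real.sq_sqrt (by linarith)]
        ring
      rw [h1, abs_neg, abs_mul]
      have h3 : r / 100 ≤ |Real.sqrt (lam - 1 / 4) - r| := (not_le.1 hsr).le
      have h4 : r ≤ |Real.sqrt (lam - 1 / 4) + r| := by
        rw [abs_of_nonneg (by linarith)]
        linarith
      calc r ^ 2 / 200 ≤ r / 100 * r := by nlinarith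
        _ ≤ |Real.sqrt (lam - 1 / 4) - r| * |Real.sqrt (lam - 1 / 4) + r| :=
          mul_le_mul h3 h4 hr0.le (abs_nonneg _)

end Pool.Agent.RS
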