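import Pool.Agent.helper62.RS.SpecG

set_option autoImplicit false

open scoped MatrixGroups ContDiff Topology UpperHalfPlane
open UpperHalfPlane MeasureTheory Filter Set

namespace Pool.Agent.RS

/-- the normalised measure on the circle -/
noncomputable def GMG_nu : Measure ℝ :=
  (ENNReal.ofReal (2 * Real.pi))⁻¹ • (volume : Measure ℝ).restrict (Ioc 0 (2 * Real.pi))

theorem GMG_prob : IsProbabilityMeasure GMG_nu := by
  refine ⟨?_⟩
  unfold GMG_nu
  rw [Measure.smul_apply, Measure.restrict_apply_univ, Real.volume_Ioc, sub_zero, smul_eq_mul]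
  refine ENNReal.inv_mul_cancel ?_ ENNReal.ofReal_ne_top
  rw [Ne, ENNReal.ofReal_eq_zero, not_le]
  positivity

/-- the parametrisation -/
noncomputable def GMG_phi (p : ℍ × ℝ) : SL(2, ℝ) := toSL2R p.1 * kM p.2

theorem GMG_mG : mG = Measure.map GMG_phi ((volume : Measure ℍ).prod GMG_nu) := rfl

theorem GMG_cont (hk : Continuous kM) : Continuous GMG_phi :=
  (continuous_toSL2R.comp continuous_fst).mul (hk.comp continuous_snd)

theorem GMG_pre (hI : ∀ θ, kM θ • I = I) (A : Set ℍ) : GMG_phi ⁻¹' (dG A) = A ×ˢ (univ : Set ℝ) := by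
  ext p
  have h : GMG_phi p • I = p.1 := by
    unfold GMG_phi
    rw [mul_smul, hI, toSL2R_smul_I]
  have h1 : p ∈ GMG_phi ⁻¹' (dG A) ↔ GMG_phi p • I ∈ A := Iff.rfl
  rw [h1, h]
  simp

theorem GMG_dG {A : Set ℍ} (hA : MeasurableSet A) : MeasurableSet (dG A) := by
  have h : Continuous fun g : SL(2, ℝ) => g • I := by fun_prop
  exact h.measurable hA

theorem GMG_vol (hk : Continuous kM) (hI : ∀ θ, kM θ • I = I) {A : Set ℍ} (hA : MeasurableSet A) :
    mG (dG A) = volume A := by
  have := GMG_prob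
  rw [GMG_mG, Measure.map_apply (GMG_cont hk).measurable (GMG_dG hA), GMG_pre hI, Measure.prod_prod,
    measure_univ, mul_one]

theorem GMG (hGLC : GLC_stmt) : GMG_stmt := by
  obtain ⟨-, hsc, hcomp, -, -, -, hk, -, -, -, -, -, -, -, -, hI, -⟩ := hGLC
  have := GMG_prob
  have hΦ := GMG_cont hk
  have h1 : ∀ A : Set ℍ, MeasurableSet A → MeasurableSet (dG A) ∧ mG (dG A) = volume A :=
    fun A hA => ⟨GMG_dG hA, GMG_vol hk hI hA⟩
  have h2 : ∀ K : Set SL(2, ℝ), IsCompact K → mG K < ⊤ := by
    intro K hK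
    have hc : Continuous fun g : SL(2, ℝ) => g • I := by fun_prop
    have hK' : IsCompact ((fun g : SL(2, ℝ) => g • I) '' K) := hK.image hc
    have hsub : K ⊆ dG ((fun g : SL(2, ℝ) => g • I) '' K) := fun g hg => ⟨g, hg, rfl⟩
    refine lt_of_le_of_lt (measure_mono hsub) ?_
    rw [(h1 _ hK'.measurableSet).2]
    exact hK'.measure_lt_top
  refine ⟨h1, h2, ?_, ?_, ?_⟩
  · refine ⟨⟨⟨fun n => dG (spanningSets (volume : Measure ℍ) n), fun _ => mem_univ _, fun n => ?_, ?_⟩⟩⟩
    · rw [(h1 _ (measurableSet_spanningSets _ n)).2]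
      exact measure_spanningSets_lt_top _ n
    · ext g
      simp only [mem_iUnion, mem_univ, iff_true]
      have h3 : g • I ∈ ⋃ n, spanningSets (volume : Measure ℍ) n := by
        rw [iUnion_spanningSets]
        exact mem_univ _
      obtain ⟨n, hn⟩ := mem_iUnion.1 h3
      exact ⟨n, hn⟩
  · intro f hf
    have hm : AEMeasurable (fun p : ℍ × ℝ => f (GMG_phi p)) ((volume : Measure ℍ).prod GMG_nu) :=
      (hf.comp hΦ.measurable).aemeasurable
    rw [GMG_mG, lintegral_map hf hΦ.measurable, lintegral_prod _ hm]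
    refine lintegral_congr fun z => ?_
    unfold GMG_nu
    rw [lintegral_smul_measure, smul_eq_mul]
    rfl
  · intro E _ _ _ f A hf hA hK
    obtain ⟨K, hK, hAK⟩ := hK
    have hfin : IsFiniteMeasureOnCompacts mG := ⟨fun {K} hK => h2 K hK⟩
    have hint : IntegrableOn f (dG A) mG := by
      have h3 : IntegrableOn f (dG K) mG := hf.continuousOn.integrableOn_compact (hcomp K hK)
      exact h3.mono_set fun g hg => hAK hg
    refine ⟨hint, ?_⟩
    have hres : mG.restrict (dG A) = Measure.map GMG_phi (((volume : Measure ℍ).restrict A).prod GMG_nu) := by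
      rw [GMG_mG, Measure.restrict_map hΦ.measurable (GMG_dG hA), GMG_pre hI, ← Measure.prod_restrict,
        Measure.restrict_univ]
    have hint' : Integrable (fun p => f (GMG_phi p)) (((volume : Measure ℍ).restrict A).prod GMG_nu) := by
      have h4 : Integrable f (Measure.map GMG_phi (((volume : Measure ℍ).restrict A).prod GMG_nu)) := by
        rw [← hres]
        exact hint
      exact h4.comp_measurable hΦ.measurable
    rw [hres, integral_map hΦ.measurable.aemeasurable hf.aestronglyMeasurable, integral_prod _ hint']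
    refine integral_congr_ae (Filter.Eventually.of_forall fun z => ?_)
    have hpi : (0 : ℝ) ≤ 2 * Real.pi := by positivity
    change ∫ θ, f (GMG_phi (z, θ)) ∂GMG_nu = (2 * Real.pi)⁻¹ • ∫ θ in (0 : ℝ)..(2 * Real.pi), f (toSL2R z * kM θ)
    rw [intervalIntegral.integral_of_le hpi]
    unfold GMG_nu
    rw [integral_smul_measure, ENNReal.toReal_inv, ENNReal.toReal_ofReal hpi]
    rfl

end Pool.Agent.RS
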